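import Pool.Agent.helper7.ZB.SpecT

set_option autoImplicit false

namespace Pool.Agent.ZB

open Pool.Agent.helper58.DC Pool.Agent.DI Pool.Agent.GR Pool.Agent.OB Pool.Agent.DR Pool.Agent.FI Pool.Agent.FI3 Pool.Agent.FI4 Pool.Agent.FI4I Pool.Agent.LE Pool.Agent.L5 Pool.Agent.NAB

theorem ZUE (hDUN : DUN_stmt) (hZE2 : ZE2_stmt) : ZUE_stmt := by
  intro p κ M hS G _ _ K η hη Q y Q' y' h h' hKZ
  obtain ⟨l, hl, hQ⟩ := (hDUN p M hS G K η hη Q y h).1 Q' y' h'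
  have h3 := (hZE2 p hS.pr κ G Q hKZ).2.2 l
  have hQ' : cjS l Q = Q' := hQ
  rw [hQ'] at h3
  exact ⟨l, hl, hQ'.symm, h3.2, h3.1⟩

end Pool.Agent.ZB
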